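import Pool.Agent.Lib.MP_4e105e_co.Nil
import Pool.Agent.Lib.MP_4e105e_co.Tour

/-!
Lower bound for the Fitting height of groups realising the partial automorphisms of a tournament.
-/

set_option autoImplicit false

namespace Pool.Agent.Results.MP_4e105e_co.FittingHeight

/-- Let `A = (V, R)` be a tournament containing a transitive subtournament of order `n ≥ 2`, embedded
by `e` in a tournament `B = (W, S)`, and let `G` be a group of automorphisms of `B` such that every
partial automorphism of `A` is induced by an element of `G`.  Then `G` has no series of `n - 2`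
successive nilpotent normal quotient steps, that is, its Fitting height is at least `n - 1`. -/
theorem result :
    ∀ (V W : Type) (R : V → V → Prop) (S : W → W → Prop),
      (∀ x, ¬ R x x) → (∀ x y, x ≠ y → (R x y ↔ ¬ R y x)) →
      (∀ a, ¬ S a a) → (∀ a b, a ≠ b → (S a b ↔ ¬ S b a)) →
      ∀ e : V ↪ W, (∀ x y, R x y ↔ S (e x) (e y)) →
      ∀ G : Subgroup (Equiv.Perm W), (∀ g ∈ G, ∀ a b, S a b ↔ S (g a) (g b)) →
      (∀ (D : Set V) (f : D → V), Function.Injective f →
        (∀ x y : D, R x y ↔ R (f x) (f y)) → ∃ g ∈ G, ∀ x : D, g (e x) = e (f x)) →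
      ∀ n : ℕ, 2 ≤ n →
        ((∃ c : Fin n → V, ∀ i j, i < j → R (c i) (c j)) ∨
          (Finite V ∧ 2 ^ (n - 1) ≤ Nat.card V)) →
        ¬ EPPA.NilLen (n - 2) G := by
  intro V W R S hR1 hR2 hS1 hS2 e he G hGS hext n hn hc hnil
  have hc' : ∃ c : Fin n → V, ∀ i j, i < j → R (c i) (c j) := by
    rcases hc with hc | ⟨hf, hc⟩
    · exact hc
    · exact EPPA.erdos_moser V R hR1 hR2 n (by omega) hc
  obtain ⟨c, hc⟩ := hc'
  obtain ⟨b, hb⟩ := EPPA.realises_of_tournament V W R S hR1 hR2 e G hext n (by omega) c hc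
  have := EPPA.nil_bound (n - 2) n W G G.subtype b hnil hb
  omega

end Pool.Agent.Results.MP_4e105e_co.FittingHeight
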