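import Pool.Agent.Lib.MP_4e105e_co_forest.Comp

/-!
Gluing of simultaneously extendable families of partial automorphisms of finite tournaments.
-/

set_option autoImplicit false

namespace Pool.Agent.Results.MP_4e105e_co.GluingTheorem

/-- `r` is (the arc relation of) a tournament. -/
def Tournament {A : Type} (r : A → A → Prop) : Prop :=
  (∀ a, ¬ r a a) ∧ ∀ a b, a ≠ b → (r a b ↔ ¬ r b a)

/-- The partial automorphisms of the subtournament of `r` on `X`; a partial map is given by its set
of pairs `(x, y)`, read `x ↦ y`. -/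
def PartAut {A : Type} (r : A → A → Prop) (X : Set A) : Set (Set (A × A)) :=
  {φ | (∀ x y x' y', (x, y) ∈ φ → (x', y') ∈ φ → ((x = x' ↔ y = y') ∧ (r x x' ↔ r y y'))) ∧
    ∀ x y, (x, y) ∈ φ → x ∈ X ∧ y ∈ X}

/-- The partial automorphisms of `r` with at most two vertices in the domain. -/
def SmallMaps {A : Type} (r : A → A → Prop) : Set (Set (A × A)) :=
  {φ | φ ∈ PartAut r Set.univ ∧ φ.encard ≤ 2}

/-- All maps of the family `F` have domain and image in `X`, and they extend to automorphisms of one
finite tournament `(B, s)` which contains (by `e`) the subtournament of `r` on `X`. -/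
def Extendable {A : Type} (r : A → A → Prop) (X : Set A) (F : Set (Set (A × A))) : Prop :=
  ∃ (B : Type) (_ : Finite B) (s : B → B → Prop), Tournament s ∧ ∃ e : X → B,
    Function.Injective e ∧ (∀ x y : X, r x y ↔ s (e x) (e y)) ∧
    ∀ φ ∈ F, ∃ σ : B ≃ B, (∀ x y, s x y ↔ s (σ x) (σ y)) ∧
      ∀ x y : A, (x, y) ∈ φ → ∃ (hx : x ∈ X) (hy : y ∈ X), σ (e ⟨x, hx⟩) = e ⟨y, hy⟩

/-- `x` and `y` lie in one orbit of the family `F`: they are joined by a chain of members of `F` and
their inverses. -/
def Joined {A : Type} (F : Set (Set (A × A))) : A → A → Prop :=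
  Relation.EqvGen (fun x y => ∃ φ ∈ F, (x, y) ∈ φ)

/-- No two different elements of `Z` lie in one orbit of the family `F`. -/
def Separated {A : Type} (F : Set (Set (A × A))) (Z : Set A) : Prop :=
  ∀ z ∈ Z, ∀ z' ∈ Z, Joined F z z' → z = z'

/-- Let `r` be a tournament on a finite set `A`.  The families of partial automorphisms which extend
simultaneously have the following closure properties.

(1) Gluing: let `F i` be extendable on `X i` for `i < k`.  For `i < k` consider the common vertices
`X i ∩ ⋃ j < i, X j`, and suppose that for every orbit of `F 0 ∪ … ∪ F i` the set `Z` of the common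
vertices in this orbit has at most two elements, or has no two elements in one orbit of `F i`, or
has no two elements in one orbit of `⋃ j < i, F j`.  Then all members of all `F i`, together with
all partial automorphisms of `A` with at most two vertices in the domain, extend to automorphisms of
one finite tournament which contains `A`.

(2) Orbits: let `F` be a family of partial automorphisms of the subtournament on `X`.  If for every
orbit `C` of `F` the restrictions of the members of `F` to `C` are extendable on `C`, then `F` is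
extendable on `X`.

(3) Groups: let `H` be a group of automorphisms of `A` and `F` a family which is extendable on `A`
and invariant under conjugation by `H`.  Then the members of `F`, all restrictions of elements of
`H` and all partial automorphisms of `A` with at most two vertices in the domain extend to
automorphisms of one finite tournament which contains `A`.

(4) Every single partial automorphism of the subtournament on `X` is extendable on `X`.

(5) Consequently, if `v 0, …, v (n - 1)` are different vertices, then all partial automorphisms of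
`A` which fix `v 0, …, v (j - 1)` for some `j ≤ n` and have at most two more vertices in the domain
extend to automorphisms of one finite tournament which contains `A`. -/
theorem result :
    ∀ (A : Type) [Finite A] (r : A → A → Prop), Tournament r →
      (∀ (k : ℕ) (X : ℕ → Set A) (F : ℕ → Set (Set (A × A))),
        (∀ i < k, Extendable r (X i) (F i)) →
        (∀ i < k, ∀ z ∈ X i ∩ ⋃ j < i, X j, ∀ Z : Set A,
          Z = {y | y ∈ X i ∩ ⋃ j < i, X j ∧ Joined (F i ∪ ⋃ j < i, F j) z y} →
          Z.encard ≤ 2 ∨ Separated (F i) Z ∨ Separated (⋃ j < i, F j) Z) →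
        Extendable r Set.univ ((⋃ i < k, F i) ∪ SmallMaps r)) ∧
      (∀ (X : Set A) (F : Set (Set (A × A))), (∀ φ ∈ F, φ ∈ PartAut r X) →
        (∀ x ∈ X, ∀ C : Set A, C = {y | y ∈ X ∧ Joined F x y} →
          Extendable r C {ψ | ∃ φ ∈ F, ψ = {p ∈ φ | p.1 ∈ C}}) →
        Extendable r X F) ∧
      (∀ H : Subgroup (Equiv.Perm A), (∀ h ∈ H, ∀ x y, r x y ↔ r (h x) (h y)) →
        ∀ F : Set (Set (A × A)), Extendable r Set.univ F →
        (∀ h ∈ H, ∀ φ ∈ F, {p : A × A | (h p.1, h p.2) ∈ φ} ∈ F) →
        Extendable r Set.univ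
          (F ∪ {φ | ∃ h ∈ H, ∀ x y, (x, y) ∈ φ → y = h x} ∪ SmallMaps r)) ∧
      (∀ X : Set A, ∀ φ ∈ PartAut r X, Extendable r X {φ}) ∧
      (∀ (n : ℕ) (v : ℕ → A), (∀ i < n, ∀ j < n, v i = v j → i = j) →
        Extendable r Set.univ {φ | φ ∈ PartAut r Set.univ ∧ ∃ j ≤ n,
          (∀ i < j, (v i, v i) ∈ φ) ∧ {p ∈ φ | ∀ i < j, p.1 ≠ v i}.encard ≤ 2}) := by
  intro A _ r hr
  refine ⟨?_, ?_, ?_, ?_, ?_⟩
  · intro k X F hF hX
    exact Pool.Agent.Lib.MP_4e105e_co_forest.glue_seq_comp r hr k X F hF
      (fun i hi z hz => hX i hi z hz _ rfl)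
  · intro X F hF h
    refine Pool.Agent.Lib.MP_4e105e_co_forest.ext_comp r hr X F hF ?_
    intro x hx
    refine Pool.Agent.Lib.MP_4e105e_co_forest.Extendable.mono (h x hx _ rfl) ?_
    rintro ψ ⟨φ, hφ, rfl⟩
    refine ⟨φ, hφ, ?_⟩
    ext ⟨a, b⟩
    constructor
    · rintro ⟨h1, h2, h3⟩
      exact ⟨h1, h2⟩
    · rintro ⟨h1, h2⟩
      have h3 : Joined F a b := Relation.EqvGen.rel _ _ ⟨φ, hφ, h1⟩
      exact ⟨h1, h2, ((hF φ hφ).2 a b h1).2, Relation.EqvGen.trans _ _ _ h2.2 h3⟩
  · intro H hH F hF hinv
    obtain ⟨B, hB, s, hs, e, he, hr', hφ⟩ :=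
      Pool.Agent.Lib.MP_4e105e_co_forest.ext_inv r hr H hH F hF hinv
    refine ⟨B, hB, s, hs, e, he, hr', ?_⟩
    rintro φ ((h1 | ⟨h, hh, h1⟩) | h1)
    · exact hφ φ (Or.inl (Or.inl h1))
    · obtain ⟨σ, hσ, h2⟩ := hφ {p : A × A | p.2 = h p.1} (Or.inl (Or.inr ⟨h, hh, rfl⟩))
      exact ⟨σ, hσ, fun x y hxy => h2 x y (h1 x y hxy)⟩
    · exact hφ φ (Or.inr h1)
  · intro X φ hφ
    exact Pool.Agent.Lib.MP_4e105e_co_forest.ext_map r hr X φ hφ
  · intro n v hv
    exact Pool.Agent.Lib.MP_4e105e_co_forest.flags r hr n Set.univ v hv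

end Pool.Agent.Results.MP_4e105e_co.GluingTheorem
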