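import Pool.Agent.Lib.MP_4e105e_co.Free.Two

/-!
The extension property for all partial automorphisms of tournaments is equivalent to the
simultaneous extension of two maps of order three.
-/

set_option autoImplicit false

namespace Pool.Agent.Results.MP_4e105e_co.TwoMapsOfOrderThree

open Pool.Agent.EPPAF

/-- Q1 in the words of the frozen statement: every finite tournament has a finite extension in which
all its partial automorphisms extend to automorphisms. -/
def EPPA : Prop :=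
  ∀ (V : Type) [Finite V] (R : V → V → Prop),
    (∀ x, ¬ R x x) → (∀ x y, x ≠ y → (R x y ↔ ¬ R y x)) →
    ∃ (W : Type) (_ : Finite W) (S : W → W → Prop),
      (∀ a, ¬ S a a) ∧ (∀ a b, a ≠ b → (S a b ↔ ¬ S b a)) ∧
      ∃ e : V ↪ W, (∀ x y, R x y ↔ S (e x) (e y)) ∧
        ∀ (D : Set V) (f : D → V), Function.Injective f →
          (∀ x y : D, R x y ↔ R (f x) (f y)) →
          ∃ g : W ≃ W, (∀ a b, S a b ↔ S (g a) (g b)) ∧
            ∀ x : D, g (e x) = e (f x)

/-- The extension property for pairs of maps of order three: every automorphism `α` of order three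
without fixed vertices of a finite tournament, and every automorphism `β` of order three without
fixed vertices of an induced subtournament, extend to automorphisms of one finite tournament. -/
def TwoMaps : Prop :=
  ∀ (V : Type) [Finite V] (R : V → V → Prop), Tour R →
    ∀ α : V ≃ V, IsAut R α → (∀ v, α v ≠ v) → (∀ v, α (α (α v)) = v) →
    ∀ (D : Set V) (β : D ≃ D), (∀ x y : D, R x y ↔ R (β x) (β y)) → (∀ x, β x ≠ x) →
      (∀ x, β (β (β x)) = x) →
      ∃ (W : Type) (_ : Finite W) (S : W → W → Prop), Tour S ∧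
        ∃ e : V ↪ W, (∀ x y, R x y ↔ S (e x) (e y)) ∧
          ∃ a b : W ≃ W, IsAut S a ∧ IsAut S b ∧ (∀ v, a (e v) = e (α v)) ∧
            ∀ x : D, b (e x) = e (β x)

theorem eppa_of_rel (h : ∀ (V : Type) [Finite V] (R : V → V → Prop), Tour R →
    Extends R {P | IsPAut R P}) : EPPA := by
  intro V _ R h1 h2
  obtain ⟨W, hW, S, hS, e, he, hF⟩ := h V R ⟨h1, h2⟩
  refine ⟨W, hW, S, hS.1, hS.2, e, he, ?_⟩
  intro D f hf hDf
  obtain ⟨g, hg, hg2⟩ := hF (fun x y => ∃ hx : x ∈ D, f ⟨x, hx⟩ = y) (by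
    rintro x x' y y' ⟨hx, rfl⟩ ⟨hy, rfl⟩
    exact hDf ⟨x, hx⟩ ⟨y, hy⟩)
  exact ⟨g, hg, fun x => hg2 _ _ ⟨x.2, rfl⟩⟩

theorem twoRel_of_twoMaps (h : TwoMaps) : TwoRel := by
  classical
  intro V _ R hR α hα hα1 hα3 B hB hB1 hB3
  let D : Set V := {x | ∃ y, B x y}
  have hD : ∀ x : D, ∃ y, B x y := fun x => x.2
  choose f hf using hD
  have hfD : ∀ x : D, f x ∈ D := by
    intro x
    obtain ⟨z, hz, _⟩ := hB3 _ _ (hf x)
    exact ⟨z, hz⟩
  have hf3 : ∀ x : D, f ⟨f ⟨f x, hfD x⟩, hfD _⟩ = x := by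
    intro x
    obtain ⟨z, hz1, hz2⟩ := hB3 _ _ (hf x)
    have h1 : f ⟨f x, hfD x⟩ = z := hB.functional hR (hf ⟨f x, hfD x⟩) hz1
    have h2 : f ⟨f ⟨f x, hfD x⟩, hfD _⟩ = x := by
      apply hB.functional hR (hf ⟨f ⟨f x, hfD x⟩, hfD _⟩)
      show B (f ⟨f x, hfD x⟩) x
      rw [h1]
      exact hz2
    exact h2
  let β : D ≃ D :=
    { toFun := fun x => ⟨f x, hfD x⟩
      invFun := fun x => ⟨f ⟨f x, hfD x⟩, hfD _⟩
      left_inv := fun x => Subtype.ext (hf3 x)
      right_inv := fun x => Subtype.ext (hf3 x) }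
  obtain ⟨W, hW, S, hS, e, he, a, b, ha, hb, ha2, hb2⟩ := h V R hR α hα hα1 hα3 D β
    (fun x y => hB _ _ _ _ (hf x) (hf y)) (by
      intro x hx
      have h1 : f x = x := congrArg Subtype.val hx
      have h2 := hf x
      rw [h1] at h2
      exact hB1 _ h2) (fun x => Subtype.ext (hf3 x))
  refine ⟨W, hW, S, hS, e, he, ?_⟩
  rintro P (rfl | hP)
  · refine ⟨a, ha, ?_⟩
    rintro x _ rfl
    exact ha2 x
  · have hP' : P = B := hP
    subst hP'
    refine ⟨b, hb, ?_⟩
    intro x y hxy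
    have h1 := hb2 ⟨x, y, hxy⟩
    have h2 : f ⟨x, y, hxy⟩ = y := hB.functional hR (hf ⟨x, y, hxy⟩) hxy
    rw [← h2]
    exact h1

theorem twoMaps_of_eppa (h : EPPA) : TwoMaps := by
  intro V _ R hR α hα _ _ D β hβ _ _
  obtain ⟨W, hW, S, h1, h2, e, he, hF⟩ := h V R hR.1 hR.2
  obtain ⟨a, ha, ha2⟩ := hF Set.univ (fun x => α x) (by
    intro x y hxy
    exact Subtype.ext (α.injective hxy)) (fun x y => hα x y)
  obtain ⟨b, hb, hb2⟩ := hF D (fun x => (β x : V)) (by
    intro x y hxy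
    exact β.injective (Subtype.ext hxy)) hβ
  exact ⟨W, hW, S, ⟨h1, h2⟩, e, he, a, b, ha, hb, fun v => ha2 ⟨v, Set.mem_univ _⟩, hb2⟩

/-- Q1 is equivalent to its case of one automorphism of order three of the tournament and one
automorphism of order three of a subtournament, both without fixed vertices. -/
theorem result : EPPA ↔ TwoMaps := by
  constructor
  · exact twoMaps_of_eppa
  · intro h
    exact eppa_of_rel fun V _ R hR => all_of_pairs
      (fun V _ R hR P Q hP hQ => pair_of_two (twoRel_of_twoMaps h) hR hP hQ) hR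

end Pool.Agent.Results.MP_4e105e_co.TwoMapsOfOrderThree
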