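import Pool.Agent.Lib.MP_4e105e_co.Recur
import Pool.Agent.Lib.MP_4e105e_co.Tour

/-!
Lower bound for the size of EPPA witnesses of finite tournaments.
-/

set_option autoImplicit false

namespace Pool.Agent.Results.MP_4e105e_co.WitnessSize

/-- Let `A = (V, R)` be a finite tournament embedded by `e` in a finite tournament `B = (W, S)`, and
let `G` be a solvable group of automorphisms of `B` such that every partial automorphism of `A` is
induced by an element of `G`.  If `A` contains a transitive subtournament of order `n ≥ 3`, for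
instance if `A` has at least `2 ^ (n - 1)` vertices, then `B` has at least `3 ^ ((3 / 2) ^ (n - 3))`
vertices. -/
theorem result :
    ∀ (V W : Type) [Finite V] [Finite W] (R : V → V → Prop) (S : W → W → Prop),
      (∀ x, ¬ R x x) → (∀ x y, x ≠ y → (R x y ↔ ¬ R y x)) →
      (∀ a, ¬ S a a) → (∀ a b, a ≠ b → (S a b ↔ ¬ S b a)) →
      ∀ e : V ↪ W, (∀ x y, R x y ↔ S (e x) (e y)) →
      ∀ G : Subgroup (Equiv.Perm W), Group.IsSolvable G →
      (∀ g ∈ G, ∀ a b, S a b ↔ S (g a) (g b)) →
      (∀ (D : Set V) (f : D → V), Function.Injective f →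
        (∀ x y : D, R x y ↔ R (f x) (f y)) → ∃ g ∈ G, ∀ x : D, g (e x) = e (f x)) →
      ∀ n : ℕ, 3 ≤ n →
        ((∃ c : Fin n → V, ∀ i j, i < j → R (c i) (c j)) ∨ 2 ^ (n - 1) ≤ Nat.card V) →
        (3 : ℝ) ^ ((3 / 2 : ℝ) ^ (n - 3)) ≤ (Nat.card W : ℝ) := by
  intro V W _ _ R S hR1 hR2 hS1 hS2 e he G hG hGS hext n hn hc
  have hc' : ∃ c : Fin n → V, ∀ i j, i < j → R (c i) (c j) := by
    rcases hc with hc | hc
    · exact hc
    · exact EPPA.erdos_moser V R hR1 hR2 n (by omega) hc
  obtain ⟨c, hc⟩ := hc'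
  obtain ⟨b, hb⟩ := EPPA.realises_of_tournament V W R S hR1 hR2 e G hext n (by omega) c hc
  have hodd := EPPA.odd_of_tournament W S hS2 G hGS
  exact EPPA.lower_main n hn W G G.subtype b hodd hb

end Pool.Agent.Results.MP_4e105e_co.WitnessSize
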